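import Pool.Agent.H313R3.BK.CF

/-!
# Continued fractions: distances and continuants
-/

set_option autoImplicit false

open Filter Topology

namespace R195.CF

open H313R3.BK

/-- appending a digit -/
def stp (p : ℝ × ℝ) (a : ℕ) : ℝ × ℝ := (p.1 * a + p.2, p.1)

/-- appending a word -/
def st (p : ℝ × ℝ) (l : List ℕ) : ℝ × ℝ := l.foldl stp p

/-- admissible parameters -/
def Good (p : ℝ × ℝ) : Prop := 0 < p.1 ∧ 0 ≤ p.2 ∧ p.2 ≤ p.1

/-- the order -/
def Le (p p' : ℝ × ℝ) : Prop := p.1 ≤ p'.1 ∧ p.1 + p.2 ≤ p'.1 + p'.2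

theorem st_nil (p : ℝ × ℝ) : st p [] = p := rfl

theorem st_cons (p : ℝ × ℝ) (a : ℕ) (l : List ℕ) : st p (a :: l) = st (stp p a) l := rfl

theorem st_append (p : ℝ × ℝ) (l l' : List ℕ) : st p (l ++ l') = st (st p l) l' := by
  unfold st; rw [List.foldl_append]

theorem Good.stp {p : ℝ × ℝ} (h : Good p) {a : ℕ} (ha : 1 ≤ a) : Good (stp p a) := by
  obtain ⟨h1, h2, h3⟩ := h
  have ha' : (1 : ℝ) ≤ a := by exact_mod_cast ha
  refine ⟨?_, h1.le, ?_⟩
  · show 0 < p.1 * a + p.2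
    positivity
  · show p.1 ≤ p.1 * a + p.2
    nlinarith

theorem Good.st {p : ℝ × ℝ} (h : Good p) {l : List ℕ} (hl : ∀ a ∈ l, 1 ≤ a) : Good (st p l) := by
  induction l generalizing p with
  | nil => exact h
  | cons a l ih =>
    rw [st_cons]
    exact ih (h.stp (hl a (by simp))) (fun b hb => hl b (by simp [hb]))

theorem Le.stp {p p' : ℝ × ℝ} (h : Le p p') {a : ℕ} (ha : 1 ≤ a) : Le (stp p a) (stp p' a) := by
  obtain ⟨h1, h2⟩ := h
  have ha' : (0 : ℝ) ≤ (a : ℝ) - 1 := by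
    have : (1 : ℝ) ≤ a := by exact_mod_cast ha
    linarith
  have h3 := mul_le_mul_of_nonneg_right h1 ha'
  refine ⟨?_, ?_⟩
  · show p.1 * a + p.2 ≤ p'.1 * a + p'.2
    nlinarith
  · show p.1 * a + p.2 + p.1 ≤ p'.1 * a + p'.2 + p'.1
    nlinarith

theorem Le.st {p p' : ℝ × ℝ} (h : Le p p') {l : List ℕ} (hl : ∀ a ∈ l, 1 ≤ a) :
    Le (st p l) (st p' l) := by
  induction l generalizing p p' with
  | nil => exact h
  | cons a l ih =>
    rw [st_cons, st_cons]
    exact ih (h.stp (hl a (by simp))) (fun b hb => hl b (by simp [hb]))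

theorem stp_smul (c : ℝ) (p : ℝ × ℝ) (a : ℕ) : stp (c * p.1, c * p.2) a = (c * (stp p a).1, c * (stp p a).2) := by
  unfold stp
  ext
  · simp only
    ring
  · simp

theorem st_smul (c : ℝ) (p : ℝ × ℝ) (l : List ℕ) :
    st (c * p.1, c * p.2) l = (c * (st p l).1, c * (st p l).2) := by
  induction l generalizing p with
  | nil => rfl
  | cons a l ih =>
    rw [st_cons, st_cons, stp_smul, ih]

theorem good_one : Good ((1 : ℝ), (0 : ℝ)) := ⟨by norm_num, by norm_num, by norm_num⟩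

/-- a good parameter is at most `2 p.1` times the basic one -/
theorem le_two {p : ℝ × ℝ} (h : Good p) : Le p (2 * p.1 * 1, 2 * p.1 * 0) := by
  obtain ⟨h1, h2, h3⟩ := h
  constructor <;> simp <;> linarith

theorem one_le {p : ℝ × ℝ} (h : Good p) : Le (p.1 * 1, p.1 * 0) p := by
  obtain ⟨h1, h2, h3⟩ := h
  constructor <;> simp <;> linarith

/-- the prefix of length `n` -/
def pre (x : ℕ → ℕ) (n : ℕ) : List ℕ := List.ofFn (fun i : Fin n => x i)

theorem pre_zero (x : ℕ → ℕ) : pre x 0 = [] := by simp [pre]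

theorem pre_succ (x : ℕ → ℕ) (n : ℕ) : pre x (n + 1) = x 0 :: pre (sh x) n := by
  unfold pre
  rw [List.ofFn_succ]
  rfl

theorem pre_length (x : ℕ → ℕ) (n : ℕ) : (pre x n).length = n := by simp [pre]

theorem pre_add (x : ℕ → ℕ) (m n : ℕ) : pre x (m + n) = pre x m ++ pre (shn m x) n := by
  induction m generalizing x with
  | zero => rw [Nat.zero_add, pre_zero, List.nil_append]; rfl
  | succ m ih =>
    have e : m + 1 + n = (m + n) + 1 := by omega
    rw [e, pre_succ, pre_succ, ih, List.cons_append]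
    rfl

theorem pre_congr (x y : ℕ → ℕ) (n : ℕ) (h : ∀ i < n, x i = y i) : pre x n = pre y n := by
  unfold pre
  congr 1
  funext i
  exact h i i.2

theorem mem_pre {x : ℕ → ℕ} {n a : ℕ} (h : a ∈ pre x n) : ∃ i, x i = a := by
  unfold pre at h
  rw [List.mem_ofFn] at h
  obtain ⟨i, hi⟩ := h
  exact ⟨i, hi⟩

theorem pre_pos {x : ℕ → ℕ} (hx : ∀ i, 1 ≤ x i) (n : ℕ) : ∀ a ∈ pre x n, 1 ≤ a := by
  intro a ha
  obtain ⟨i, hi⟩ := mem_pre ha
  rw [← hi]; exact hx i

theorem den_pos {p : ℝ × ℝ} (h : Good p) {t : ℝ} (ht : 0 ≤ t) : 0 < p.1 + p.2 * t := by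
  obtain ⟨h1, h2, h3⟩ := h
  positivity

/-- the distance of two continued fractions with the same first digits -/
theorem dist_gen (n : ℕ) : ∀ (x y : ℕ → ℕ) (p : ℝ × ℝ), Good p → (∀ i, 1 ≤ x i) → (∀ i, 1 ≤ y i) →
    (∀ i < n, x i = y i) →
    |cf x - cf y| / ((p.1 + p.2 * cf x) * (p.1 + p.2 * cf y)) =
      |cf (shn n x) - cf (shn n y)| /
        (((st p (pre x n)).1 + (st p (pre x n)).2 * cf (shn n x)) *
          ((st p (pre x n)).1 + (st p (pre x n)).2 * cf (shn n y))) := by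
  induction n with
  | zero =>
    intro x y p _ _ _ _
    rw [pre_zero, st_nil]
    rfl
  | succ n ih =>
    intro x y p hp hx hy hxy
    have h0 : x 0 = y 0 := hxy 0 (by omega)
    have ih' := ih (sh x) (sh y) (stp p (x 0)) (hp.stp (hx 0)) (fun i => hx (i + 1))
      (fun i => hy (i + 1)) (fun i hi => hxy (i + 1) (by omega))
    rw [pre_succ, st_cons]
    have e1 : shn (n + 1) x = shn n (sh x) := rfl
    have e2 : shn (n + 1) y = shn n (sh y) := rfl
    rw [e1, e2, ← ih']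
    have x1 := cf_pos (sh x) (fun i => hx (i + 1))
    have y1 := cf_pos (sh y) (fun i => hy (i + 1))
    have hx0 : (1 : ℝ) ≤ x 0 := by exact_mod_cast hx 0
    have ex := cf_rec x hx
    have ey := cf_rec y hy
    rw [← h0] at ey
    set u := cf (sh x) with hu
    set v := cf (sh y) with hv
    have d1 : (x 0 : ℝ) + u ≠ 0 := by positivity
    have d2 : (x 0 : ℝ) + v ≠ 0 := by positivity
    have g1 : (stp p (x 0)).1 + (stp p (x 0)).2 * u = (p.1 + p.2 * cf x) * ((x 0 : ℝ) + u) := by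
      rw [ex]
      show p.1 * (x 0) + p.2 + p.1 * u = _
      field_simp
      ring
    have g2 : (stp p (x 0)).1 + (stp p (x 0)).2 * v = (p.1 + p.2 * cf y) * ((x 0 : ℝ) + v) := by
      rw [ey]
      show p.1 * (x 0) + p.2 + p.1 * v = _
      field_simp
      ring
    rw [g1, g2]
    have g3 : cf x - cf y = -(u - v) / (((x 0 : ℝ) + u) * ((x 0 : ℝ) + v)) := by
      rw [ex, ey]
      field_simp
      ring
    have g4 : |cf x - cf y| = |u - v| / (((x 0 : ℝ) + u) * ((x 0 : ℝ) + v)) := by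
      rw [g3, abs_div, abs_neg, abs_of_pos (by positivity : 0 < ((x 0 : ℝ) + u) * ((x 0 : ℝ) + v))]
    rw [g4]
    have cx := cf_pos x hx
    have cy := cf_pos y hy
    have k1 := den_pos hp cx.le
    have k2 := den_pos hp cy.le
    field_simp

theorem dist_eq (n : ℕ) (x y : ℕ → ℕ) (hx : ∀ i, 1 ≤ x i) (hy : ∀ i, 1 ≤ y i)
    (hxy : ∀ i < n, x i = y i) :
    |cf x - cf y| =
      |cf (shn n x) - cf (shn n y)| /
        (((st (1, 0) (pre x n)).1 + (st (1, 0) (pre x n)).2 * cf (shn n x)) *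
          ((st (1, 0) (pre x n)).1 + (st (1, 0) (pre x n)).2 * cf (shn n y))) := by
  have h := dist_gen n x y (1, 0) good_one hx hy hxy
  simpa using h

theorem dist_le (n : ℕ) (x y : ℕ → ℕ) (hx : ∀ i, 1 ≤ x i) (hy : ∀ i, 1 ≤ y i)
    (hxy : ∀ i < n, x i = y i) :
    |cf x - cf y| ≤ 1 / (st (1, 0) (pre x n)).1 ^ 2 := by
  rw [dist_eq n x y hx hy hxy]
  have hg := good_one.st (pre_pos hx n)
  obtain ⟨h1, h2, h3⟩ := hg
  have x1 := cf_pos (shn n x) (fun i => hx (i + n))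
  have x2 := cf_lt_one (shn n x) (fun i => hx (i + n))
  have y1 := cf_pos (shn n y) (fun i => hy (i + n))
  have y2 := cf_lt_one (shn n y) (fun i => hy (i + n))
  have h4 : |cf (shn n x) - cf (shn n y)| ≤ 1 := by
    rw [abs_le]; constructor <;> linarith
  apply div_le_div₀ zero_le_one h4 (by positivity)
  rw [sq]
  have k1 : 0 ≤ (st (1, 0) (pre x n)).2 * cf (shn n x) := by positivity
  have k2 : 0 ≤ (st (1, 0) (pre x n)).2 * cf (shn n y) := by positivity
  apply mul_le_mul <;> linarith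

theorem dist_ge (n : ℕ) (x y : ℕ → ℕ) (hx : ∀ i, 1 ≤ x i) (hy : ∀ i, 1 ≤ y i)
    (hxy : ∀ i < n, x i = y i) :
    |cf (shn n x) - cf (shn n y)| / (4 * (st (1, 0) (pre x n)).1 ^ 2) ≤ |cf x - cf y| := by
  rw [dist_eq n x y hx hy hxy]
  have hg := good_one.st (pre_pos hx n)
  obtain ⟨h1, h2, h3⟩ := hg
  have x1 := cf_pos (shn n x) (fun i => hx (i + n))
  have x2 := cf_lt_one (shn n x) (fun i => hx (i + n))
  have y1 := cf_pos (shn n y) (fun i => hy (i + n))
  have y2 := cf_lt_one (shn n y) (fun i => hy (i + n))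
  set P := st (1, 0) (pre x n) with hP
  have k1 : 0 ≤ P.2 * cf (shn n x) := by positivity
  have k2 : 0 ≤ P.2 * cf (shn n y) := by positivity
  have k3 : P.2 * cf (shn n x) ≤ P.1 := by nlinarith
  have k4 : P.2 * cf (shn n y) ≤ P.1 := by nlinarith
  apply div_le_div_of_nonneg_left (abs_nonneg _) (by positivity)
  have : (4 : ℝ) * P.1 ^ 2 = (2 * P.1) * (2 * P.1) := by ring
  rw [this]
  apply mul_le_mul <;> linarith

/-- growth of the denominators -/
theorem growth (l : List ℕ) : ∀ (p : ℝ × ℝ), Good p → 1 ≤ p.1 → (∀ a ∈ l, 1 ≤ a) →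
    1 ≤ (st p l).1 ∧ p.1 + p.2 + l.length ≤ (st p l).1 + (st p l).2 := by
  induction l with
  | nil =>
    intro p hp h1 _
    rw [st_nil]
    simp [h1]
  | cons a l ih =>
    intro p hp h1 hl
    have ha : 1 ≤ a := hl a (by simp)
    have ha' : (1 : ℝ) ≤ a := by exact_mod_cast ha
    obtain ⟨g1, g2, g3⟩ := hp
    have e1 : (stp p a).1 = p.1 * a + p.2 := rfl
    have e2 : (stp p a).2 = p.1 := rfl
    obtain ⟨i1, i2⟩ := ih (stp p a) (Good.stp ⟨g1, g2, g3⟩ ha) (by rw [e1]; nlinarith)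
      (fun b hb => hl b (by simp [hb]))
    rw [st_cons]
    refine ⟨i1, ?_⟩
    rw [e1, e2] at i2
    push_cast [List.length_cons]
    nlinarith

theorem pre_ge (x : ℕ → ℕ) (hx : ∀ i, 1 ≤ x i) (n : ℕ) :
    1 ≤ (st (1, 0) (pre x n)).1 ∧ ((n : ℝ) + 1) / 2 ≤ (st (1, 0) (pre x n)).1 := by
  obtain ⟨h1, h2⟩ := growth (pre x n) (1, 0) good_one le_rfl (pre_pos hx n)
  have hg := good_one.st (pre_pos hx n)
  obtain ⟨_, _, h3⟩ := hg
  rw [pre_length] at h2
  refine ⟨h1, ?_⟩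
  simp only [add_zero] at h2
  linarith

/-- sub-multiplicativity -/
theorem st_first_le {p : ℝ × ℝ} (hp : Good p) {l : List ℕ} (hl : ∀ a ∈ l, 1 ≤ a) :
    (st p l).1 ≤ 2 * p.1 * (st (1, 0) l).1 := by
  have h := (Le.st (le_two hp) hl).1
  have e := st_smul (2 * p.1) (1, 0) l
  simp only at e
  rw [e] at h
  exact h

/-- a crude upper bound -/
theorem st_le_pow (M : ℝ) (hM : 1 ≤ M) (l : List ℕ) : ∀ (p : ℝ × ℝ), Good p → (∀ a ∈ l, 1 ≤ a) →
    (∀ a ∈ l, (a : ℝ) ≤ M) → (st p l).1 ≤ p.1 * (M + 1) ^ l.length := by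
  induction l with
  | nil => intro p _ _ _; simp [st_nil]
  | cons a l ih =>
    intro p hp h1 hl
    have ha : (a : ℝ) ≤ M := hl a (by simp)
    have h2 := ih (stp p a) (hp.stp (h1 a (by simp))) (fun b hb => h1 b (by simp [hb]))
      (fun b hb => hl b (by simp [hb]))
    rw [st_cons, List.length_cons, pow_succ]
    obtain ⟨g1, g2, g3⟩ := hp
    have e1 : (stp p a).1 = p.1 * a + p.2 := rfl
    rw [e1] at h2
    refine h2.trans ?_
    have h3 : p.1 * a + p.2 ≤ p.1 * (M + 1) := by nlinarith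
    calc (p.1 * a + p.2) * (M + 1) ^ l.length ≤ p.1 * (M + 1) * (M + 1) ^ l.length := by gcongr
      _ = _ := by ring

end R195.CF
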