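import Mathlib

/-!
# Lower bound for the dimension: a coding argument
-/

set_option autoImplicit false

open Filter Topology Set
open scoped ENNReal NNReal

namespace R195.CF

/-- digits -/
lemma cum {E : Type} (F : Finset E) (p : E → ℝ) (hp : ∀ e ∈ F, 0 < p e) :
    ∃ c : E → ℝ, ∀ y ∈ Ico (0 : ℝ) (∑ e ∈ F, p e), ∃ e ∈ F, ∃ y' ∈ Ico (0 : ℝ) 1,
      y = c e + p e * y' := by
  classical
  induction F using Finset.induction_on with
  | empty =>
    refine ⟨fun _ => 0, fun y hy => ?_⟩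
    rw [Finset.sum_empty] at hy
    exact absurd hy.2 (not_lt.mpr hy.1)
  | insert a s ha ih =>
    obtain ⟨c, hc⟩ := ih (fun e he => hp e (Finset.mem_insert_of_mem he))
    refine ⟨Function.update c a (∑ e ∈ s, p e), fun y hy => ?_⟩
    rw [Finset.sum_insert ha] at hy
    rcases lt_or_ge y (∑ e ∈ s, p e) with h | h
    · obtain ⟨e, he, y', hy', heq⟩ := hc y ⟨hy.1, h⟩
      refine ⟨e, Finset.mem_insert_of_mem he, y', hy', ?_⟩
      rw [Function.update_of_ne (fun hea : e = a => ha (hea ▸ he))]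
      exact heq
    · have hpa := hp a (Finset.mem_insert_self a s)
      refine ⟨a, Finset.mem_insert_self a s, (y - ∑ e ∈ s, p e) / p a, ⟨?_, ?_⟩, ?_⟩
      · exact div_nonneg (by linarith) hpa.le
      · rw [div_lt_one hpa]; linarith [hy.2]
      · rw [Function.update_self]
        field_simp
        ring

lemma dimH_Ico01 : dimH (Ico (0 : ℝ) 1) = 1 := by
  rw [Real.dimH_of_nonempty_interior]
  · simp
  · rw [interior_Ico]
    exact ⟨1 / 2, by norm_num⟩

/-- Lower bound for the dimension of a set coded by sequences over a finite alphabet. -/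
theorem dim_lower {E : Type} [Fintype E] (r : E → ℝ) (hr : ∀ e, 0 < r e) (hr' : ∀ e, r e ≤ 1 / 4)
    {t : ℝ} (ht : 0 < t) (hP : 1 ≤ ∑ e, r e ^ t) (pt : (ℕ → E) → ℝ) {g : ℝ} (hg : 0 < g)
    (hsep : ∀ (x x' : ℕ → E) (n : ℕ), (∀ i < n, x i = x' i) → x n ≠ x' n →
      g * ∏ i ∈ Finset.range n, r (x i) ≤ |pt x - pt x'|) :
    ENNReal.ofReal t ≤ dimH (range pt) := by
  classical
  set P := ∑ e, r e ^ t with hPdef
  have hP0 : 0 < P := by linarith
  set p : E → ℝ := fun e => r e ^ t / P with hp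
  have hp0 : ∀ e, 0 < p e := fun e => div_pos (Real.rpow_pos_of_pos (hr e) t) hP0
  have hple : ∀ e, p e ≤ r e ^ t := fun e => div_le_self (Real.rpow_nonneg (hr e).le t) hP
  have hpsum : ∑ e, p e = 1 := by
    rw [hp]
    rw [← Finset.sum_div, ← hPdef, div_self hP0.ne']
  obtain ⟨c, hc⟩ := cum Finset.univ p (fun e _ => hp0 e)
  rw [hpsum] at hc
  have hne : (Finset.univ : Finset E).Nonempty := by
    rcases (Finset.univ : Finset E).eq_empty_or_nonempty with h0 | h0
    · rw [h0, Finset.sum_empty] at hpsum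
      exact absurd hpsum (by norm_num)
    · exact h0
  obtain ⟨e₀, _⟩ := hne
  have : Nonempty E := ⟨e₀⟩
  choose! dig hdig T hT hTeq using hc
  have hTn : ∀ (n : ℕ) (y : ℝ), y ∈ Ico (0 : ℝ) 1 → T^[n] y ∈ Ico (0 : ℝ) 1 := by
    intro n
    induction n with
    | zero => exact fun y hy => hy
    | succ n ih =>
      intro y hy
      rw [Function.iterate_succ_apply']
      exact hT _ (ih y hy)
  set om : ℝ → ℕ → E := fun y n => dig (T^[n] y) with hom
  have hagree : ∀ (n : ℕ) (y y' : ℝ), y ∈ Ico (0 : ℝ) 1 → y' ∈ Ico (0 : ℝ) 1 →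
      (∀ i < n, om y i = om y' i) →
      y - y' = (∏ i ∈ Finset.range n, p (om y i)) * (T^[n] y - T^[n] y') := by
    intro n
    induction n with
    | zero => intro y y' _ _ _; simp
    | succ n ih =>
      intro y y' hy hy' hag
      rw [ih y y' hy hy' (fun i hi => hag i (by omega)), Finset.prod_range_succ, mul_assoc]
      congr 1
      have e1 := hTeq (T^[n] y) (hTn n y hy)
      have e2 := hTeq (T^[n] y') (hTn n y' hy')
      have e3 : dig (T^[n] y) = dig (T^[n] y') := hag n (by omega)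
      rw [Function.iterate_succ_apply', Function.iterate_succ_apply']
      rw [← e3] at e2
      have e4 : T^[n] y - T^[n] y' = p (dig (T^[n] y)) * (T (T^[n] y) - T (T^[n] y')) := by
        rw [mul_sub]; linarith
      exact e4
  have hprodle : ∀ (y : ℝ) (n : ℕ), ∏ i ∈ Finset.range n, p (om y i) ≤
      (∏ i ∈ Finset.range n, r (om y i)) ^ t := by
    intro y n
    rw [← Real.finsetProd_rpow _ _ (fun i _ => (hr _).le)]
    exact Finset.prod_le_prod (fun i _ => (hp0 _).le) (fun i _ => hple _)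
  have hprodpos : ∀ (y : ℝ) (n : ℕ), 0 < ∏ i ∈ Finset.range n, r (om y i) := fun y n =>
    Finset.prod_pos fun i _ => hr _
  have hprodppos : ∀ (y : ℝ) (n : ℕ), 0 < ∏ i ∈ Finset.range n, p (om y i) := fun y n =>
    Finset.prod_pos fun i _ => hp0 _
  have hle1 : ∀ (n : ℕ) (y y' : ℝ), y ∈ Ico (0 : ℝ) 1 → y' ∈ Ico (0 : ℝ) 1 →
      (∀ i < n, om y i = om y' i) → |y - y'| ≤ (∏ i ∈ Finset.range n, r (om y i)) ^ t := by
    intro n y y' hy hy' hag
    rw [hagree n y y' hy hy' hag, abs_mul, abs_of_pos (hprodppos y n)]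
    have h1 := hTn n y hy
    have h2 := hTn n y' hy'
    have h3 : |T^[n] y - T^[n] y'| ≤ 1 := by
      rw [abs_le]; constructor <;> linarith [h1.1, h1.2, h2.1, h2.2]
    calc _ ≤ (∏ i ∈ Finset.range n, p (om y i)) * 1 :=
          mul_le_mul_of_nonneg_left h3 (hprodppos y n).le
      _ = ∏ i ∈ Finset.range n, p (om y i) := mul_one _
      _ ≤ _ := hprodle y n
  have hprodle4 : ∀ (y : ℝ) (n : ℕ), ∏ i ∈ Finset.range n, r (om y i) ≤ (1 / 4) ^ n := by
    intro y n
    calc ∏ i ∈ Finset.range n, r (om y i) ≤ ∏ i ∈ Finset.range n, (1 / 4 : ℝ) :=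
          Finset.prod_le_prod (fun i _ => (hr _).le) (fun i _ => hr' _)
      _ = (1 / 4) ^ n := by rw [Finset.prod_const, Finset.card_range]
  -- main estimate
  have hmain : ∀ y ∈ Ico (0 : ℝ) 1, ∀ y' ∈ Ico (0 : ℝ) 1,
      |y - y'| ≤ (|pt (om y) - pt (om y')| / g) ^ t := by
    intro y hy y' hy'
    by_cases hall : ∀ n, om y n = om y' n
    · -- all digits agree
      have h1 : Tendsto (fun n : ℕ => ((1 / 4 : ℝ) ^ n) ^ t) atTop (𝓝 0) := by
        have h2 : Tendsto (fun n : ℕ => (1 / 4 : ℝ) ^ n) atTop (𝓝 0) :=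
          tendsto_pow_atTop_nhds_zero_of_lt_one (by norm_num) (by norm_num)
        have h3 := h2.rpow_const (p := t) (Or.inr ht.le)
        rwa [Real.zero_rpow ht.ne'] at h3
      have h4 : |y - y'| ≤ 0 := by
        refine ge_of_tendsto' h1 fun n => ?_
        refine (hle1 n y y' hy hy' (fun i _ => hall i)).trans ?_
        exact Real.rpow_le_rpow (hprodpos y n).le (hprodle4 y n) ht.le
      exact h4.trans (Real.rpow_nonneg (div_nonneg (abs_nonneg _) hg.le) t)
    · push Not at hall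
      have hfind := Nat.find_spec hall
      have hmin : ∀ i < Nat.find hall, om y i = om y' i := fun i hi => by
        by_contra hcon
        exact Nat.find_min hall hi hcon
      set n := Nat.find hall with hn
      refine (hle1 n y y' hy hy' hmin).trans ?_
      apply Real.rpow_le_rpow (hprodpos y n).le _ ht.le
      rw [le_div_iff₀ hg, mul_comm]
      exact hsep (om y) (om y') n hmin hfind
  -- the Hölder inverse
  set ptt : ℝ → ℝ := fun y => pt (om y) with hptt
  have hinj : InjOn ptt (Ico (0 : ℝ) 1) := by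
    intro y hy y' hy' heq
    have := hmain y hy y' hy'
    have heq' : pt (om y) = pt (om y') := heq
    rw [heq', sub_self, abs_zero, zero_div, Real.zero_rpow ht.ne'] at this
    have h0 : |y - y'| = 0 := le_antisymm this (abs_nonneg _)
    exact sub_eq_zero.mp (abs_eq_zero.mp h0)
  set f := Function.invFunOn ptt (Ico (0 : ℝ) 1) with hf
  have hfpt : ∀ y ∈ Ico (0 : ℝ) 1, f (ptt y) = y := fun y hy => hinj.leftInvOn_invFunOn hy
  have hhold : HolderOnWith ((1 / g) ^ t).toNNReal t.toNNReal f (ptt '' Ico (0 : ℝ) 1) := by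
    rintro _ ⟨y, hy, rfl⟩ _ ⟨y', hy', rfl⟩
    rw [hfpt y hy, hfpt y' hy', edist_dist, edist_dist, Real.dist_eq, Real.dist_eq,
      Real.coe_toNNReal t ht.le]
    rw [ENNReal.ofReal_rpow_of_nonneg (abs_nonneg _) ht.le]
    rw [← ENNReal.ofReal]
    rw [← ENNReal.ofReal_mul (by positivity)]
    apply ENNReal.ofReal_le_ofReal
    refine (hmain y hy y' hy').trans (le_of_eq ?_)
    rw [← Real.mul_rpow (by positivity) (abs_nonneg _)]
    congr 1
    ring
  have himg : f '' (ptt '' Ico (0 : ℝ) 1) = Ico (0 : ℝ) 1 := by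
    ext z
    constructor
    · rintro ⟨_, ⟨y, hy, rfl⟩, rfl⟩
      rw [hfpt y hy]; exact hy
    · intro hz
      exact ⟨ptt z, ⟨z, hz, rfl⟩, hfpt z hz⟩
  have ht' : 0 < t.toNNReal := Real.toNNReal_pos.mpr ht
  have hdim := hhold.dimH_image_le ht'
  rw [himg, dimH_Ico01] at hdim
  have hsub : ptt '' Ico (0 : ℝ) 1 ⊆ range pt := by
    rintro _ ⟨y, hy, rfl⟩
    exact ⟨om y, rfl⟩
  refine le_trans ?_ (dimH_mono hsub)
  rw [ENNReal.le_div_iff_mul_le (Or.inl (by simpa using ht)) (Or.inl (by simp)), one_mul] at hdim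
  exact hdim

end R195.CF
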