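import Pool.Agent.R195.CF.Upper
import Pool.Agent.R195.CF.Lower

/-!
# Lower bound for the dimension of continued fraction sets over a finite alphabet
-/

set_option autoImplicit false

open Filter Topology Set
open scoped ENNReal NNReal

namespace R195.CF

open H313R3.BK

theorem cf_bounds (M : ℝ) (x : ℕ → ℕ) (hx : ∀ i, 1 ≤ x i ∧ (x i : ℝ) ≤ M) :
    1 / (M + 1) ≤ cf x ∧ cf x ≤ 1 - 1 / (M + 2) := by
  have hM : 1 ≤ M := by
    have h1 : (1 : ℝ) ≤ x 0 := by exact_mod_cast (hx 0).1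
    exact h1.trans (hx 0).2
  have low : ∀ y : ℕ → ℕ, (∀ i, 1 ≤ y i ∧ (y i : ℝ) ≤ M) → 1 / (M + 1) ≤ cf y := by
    intro y hy
    have h0 : (1 : ℝ) ≤ y 0 := by exact_mod_cast (hy 0).1
    have h1 := cf_pos (sh y) (fun i => (hy (i + 1)).1)
    have h2 := cf_lt_one (sh y) (fun i => (hy (i + 1)).1)
    rw [cf_rec y (fun i => (hy i).1)]
    apply one_div_le_one_div_of_le (by positivity)
    linarith [(hy 0).2]
  refine ⟨low x hx, ?_⟩
  have h3 := low (sh x) (fun i => hx (i + 1))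
  have h0 : (1 : ℝ) ≤ x 0 := by exact_mod_cast (hx 0).1
  rw [cf_rec x (fun i => (hx i).1)]
  have h4 : 1 + 1 / (M + 1) ≤ (x 0 : ℝ) + cf (sh x) := by linarith
  have h5 : (0 : ℝ) < 1 + 1 / (M + 1) := by positivity
  refine (one_div_le_one_div_of_le h5 h4).trans (le_of_eq ?_)
  have : M + 1 ≠ 0 := by positivity
  have : M + 2 ≠ 0 := by positivity
  field_simp
  ring

theorem cf_gap (M : ℝ) (x y : ℕ → ℕ) (hx : ∀ i, 1 ≤ x i ∧ (x i : ℝ) ≤ M)
    (hy : ∀ i, 1 ≤ y i ∧ (y i : ℝ) ≤ M) (hne : x 0 ≠ y 0) :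
    1 / ((M + 2) * (M + 1) ^ 2) ≤ |cf x - cf y| := by
  have hx0 : (1 : ℝ) ≤ x 0 := by exact_mod_cast (hx 0).1
  have hy0 : (1 : ℝ) ≤ y 0 := by exact_mod_cast (hy 0).1
  have hxM := (hx 0).2
  have hyM := (hy 0).2
  have hM : 1 ≤ M := hx0.trans hxM
  obtain ⟨u1, u2⟩ := cf_bounds M (sh x) (fun i => hx (i + 1))
  obtain ⟨v1, v2⟩ := cf_bounds M (sh y) (fun i => hy (i + 1))
  rw [cf_rec x (fun i => (hx i).1), cf_rec y (fun i => (hy i).1)]
  set u := cf (sh x) with hu
  set v := cf (sh y) with hv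
  have hMp : 0 < 1 / (M + 1) := by positivity
  have hMq : 0 < 1 / (M + 2) := by positivity
  have hu0 : 0 < u := by linarith
  have hv0 : 0 < v := by linarith
  have e : 1 / ((x 0 : ℝ) + u) - 1 / ((y 0 : ℝ) + v) =
      (((y 0 : ℝ) + v) - ((x 0 : ℝ) + u)) / (((x 0 : ℝ) + u) * ((y 0 : ℝ) + v)) := by
    have : (x 0 : ℝ) + u ≠ 0 := by positivity
    have : (y 0 : ℝ) + v ≠ 0 := by positivity
    field_simp
  have hpos : 0 < ((x 0 : ℝ) + u) * ((y 0 : ℝ) + v) := by positivity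
  rw [e, abs_div, abs_of_pos hpos]
  have h1 : 1 / (M + 2) ≤ |((y 0 : ℝ) + v) - ((x 0 : ℝ) + u)| := by
    rcases lt_or_gt_of_ne hne with h | h
    · have : ((x 0 : ℝ) + 1) ≤ y 0 := by exact_mod_cast h
      exact le_trans (by linarith) (le_abs_self _)
    · have : ((y 0 : ℝ) + 1) ≤ x 0 := by exact_mod_cast h
      exact le_trans (by linarith) (neg_le_abs _)
  have h2 : ((x 0 : ℝ) + u) * ((y 0 : ℝ) + v) ≤ (M + 1) ^ 2 := by
    rw [sq]
    exact mul_le_mul (by linarith) (by linarith) (by positivity) (by linarith)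
  calc 1 / ((M + 2) * (M + 1) ^ 2) = 1 / (M + 2) / (M + 1) ^ 2 := by rw [div_div]
    _ ≤ _ := by
      apply div_le_div₀ (abs_nonneg _) h1 hpos h2

/-- concatenation -/
def cat {T : Finset ℕ} {n : ℕ} (hn : 0 < n) (x : ℕ → (Fin n → T)) (i : ℕ) : ℕ :=
  (x (i / n) ⟨i % n, Nat.mod_lt i hn⟩ : ℕ)

theorem cat_add {T : Finset ℕ} {n : ℕ} (hn : 0 < n) (x : ℕ → (Fin n → T)) (k : ℕ) (i : Fin n) :
    cat hn x (i + k * n) = (x k i : ℕ) := by
  unfold cat
  have h1 : ((i : ℕ) + k * n) / n = k := by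
    rw [Nat.add_mul_div_right _ _ hn, Nat.div_eq_of_lt i.2, zero_add]
  have h2 : ((i : ℕ) + k * n) % n = i := by
    rw [Nat.add_mul_mod_self_right, Nat.mod_eq_of_lt i.2]
  have h3 : (⟨((i : ℕ) + k * n) % n, Nat.mod_lt _ hn⟩ : Fin n) = i := Fin.ext h2
  rw [h3, h1]

theorem block_prod (e : ℕ → ℕ) (he : ∀ l, 1 ≤ e l) {T : Finset ℕ} {n : ℕ} (hn : 0 < n)
    (x : ℕ → (Fin n → T)) (k : ℕ) :
    (st (1, 0) (pre (fun i => e (cat hn x i)) (k * n))).1 ≤
      ∏ i ∈ Finset.range k, (2 * (st (1, 0) (List.ofFn (fun j => e (x i j)))).1) := by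
  induction k with
  | zero => simp [pre_zero, st_nil]
  | succ k ih =>
    have e1 : (k + 1) * n = k * n + n := by ring
    rw [e1, pre_add, st_append, Finset.prod_range_succ]
    have e2 : pre (shn (k * n) (fun i => e (cat hn x i))) n = List.ofFn (fun j => e (x k j)) := by
      unfold pre
      congr 1
      funext i
      show e (cat hn x (i + k * n)) = _
      rw [cat_add]
    rw [e2]
    have hg := good_one.st (pre_pos (x := fun i => e (cat hn x i)) (fun i => he _) (k * n))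
    have hl : ∀ a ∈ List.ofFn (fun j => e (x k j)), 1 ≤ a := by
      intro a ha
      rw [List.mem_ofFn] at ha
      obtain ⟨i, hi⟩ := ha
      rw [← hi]; exact he _
    have hg2 := good_one.st hl
    refine (st_first_le hg hl).trans ?_
    have h1 := hg2.1
    calc 2 * (st (1, 0) (pre (fun i => e (cat hn x i)) (k * n))).1 *
          (st (1, 0) (List.ofFn (fun j => e (x k j)))).1
        = (st (1, 0) (pre (fun i => e (cat hn x i)) (k * n))).1 *
          (2 * (st (1, 0) (List.ofFn (fun j => e (x k j)))).1) := by ring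
      _ ≤ _ := mul_le_mul_of_nonneg_right ih (by positivity)

/-- the lower bound -/
theorem lower (e : ℕ → ℕ) (he : ∀ l, 1 ≤ e l) (hinj : Function.Injective e) (T : Finset ℕ) (s : ℝ)
    (hs : 0 < s) (n : ℕ) (hn : 0 < n) (h : (4 : ℝ) ^ s ≤ SR e T s n (1, 0)) :
    ENNReal.ofReal s ≤ dimH (JJ e (T : Set ℕ)) := by
  classical
  obtain ⟨M, hM1, hM⟩ : ∃ M : ℝ, 1 ≤ M ∧ ∀ a ∈ T, (e a : ℝ) ≤ M := by
    refine ⟨1 + ∑ a ∈ T, (e a : ℝ), by
      have : 0 ≤ ∑ a ∈ T, (e a : ℝ) := Finset.sum_nonneg (fun i _ => by positivity)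
      linarith, fun a ha => ?_⟩
    have := Finset.single_le_sum (f := fun a : ℕ => (e a : ℝ)) (fun i _ => by positivity) ha
    linarith
  set Q : (Fin n → T) → ℝ := fun w => (st (1, 0) (List.ofFn (fun j => e (w j)))).1 with hQ
  have hl : ∀ w : Fin n → T, ∀ a ∈ List.ofFn (fun j => e (w j)), 1 ≤ a := by
    intro w a ha
    rw [List.mem_ofFn] at ha
    obtain ⟨i, hi⟩ := ha
    rw [← hi]; exact he _
  have hQ1 : ∀ w, 1 ≤ Q w := fun w => (growth _ (1, 0) good_one le_rfl (hl w)).1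
  set r : (Fin n → T) → ℝ := fun w => 1 / (4 * Q w ^ 2) with hr
  have hr0 : ∀ w, 0 < r w := fun w => by
    have := hQ1 w
    simp only [hr]; positivity
  have hr4 : ∀ w, r w ≤ 1 / 4 := fun w => by
    have := hQ1 w
    simp only [hr]
    apply one_div_le_one_div_of_le (by norm_num)
    nlinarith
  have hsum : 1 ≤ ∑ w, r w ^ s := by
    have e1 : ∀ w, r w ^ s = (4 : ℝ) ^ (-s) * Q w ^ (-(2 * s)) := by
      intro w
      have h1 := hQ1 w
      have h2 : 0 < Q w := by linarith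
      simp only [hr]
      rw [one_div, Real.inv_rpow (by positivity), Real.mul_rpow (by norm_num) (by positivity),
        mul_inv, ← Real.rpow_neg (by norm_num), ← Real.rpow_natCast, ← Real.rpow_mul h2.le,
        ← Real.rpow_neg h2.le]
      norm_num
    simp_rw [e1]
    rw [← Finset.mul_sum]
    have e2 := SR_words (e := e) T s n (1, 0)
    have e3 : ∑ w, Q w ^ (-(2 * s)) = SR e T s n (1, 0) := e2.symm
    rw [e3, Real.rpow_neg (by norm_num)]
    have h4 : (0 : ℝ) < 4 ^ s := by positivity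
    rw [inv_mul_eq_div, le_div_iff₀ h4, one_mul]
    exact h
  set pt : (ℕ → (Fin n → T)) → ℝ := fun x => cf (fun i => e (cat hn x i)) with hpt
  set g : ℝ := 1 / ((M + 2) * (M + 1) ^ 2) / (4 * ((M + 1) ^ n) ^ 2) with hg
  have hg0 : 0 < g := by positivity
  have hmemT : ∀ (x : ℕ → (Fin n → T)) (i : ℕ), cat hn x i ∈ T := fun x i => by
    unfold cat; exact (x _ _).2
  have hrange : range pt ⊆ JJ e (T : Set ℕ) := by
    rintro _ ⟨x, rfl⟩
    exact ⟨cat hn x, fun i => hmemT x i, rfl⟩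
  refine le_trans ?_ (dimH_mono hrange)
  refine dim_lower r hr0 hr4 hs hsum pt hg0 ?_
  intro x x' k hagree hdiff
  set X : ℕ → ℕ := fun i => e (cat hn x i) with hX
  set X' : ℕ → ℕ := fun i => e (cat hn x' i) with hX'
  obtain ⟨j, hj⟩ : ∃ j, x k j ≠ x' k j := by
    by_contra hcon
    push Not at hcon
    exact hdiff (funext hcon)
  have hex : ∃ m, X m ≠ X' m := by
    refine ⟨j + k * n, ?_⟩
    intro heq
    have h1 : cat hn x (j + k * n) = cat hn x' (j + k * n) := hinj heq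
    rw [cat_add, cat_add] at h1
    exact hj (Subtype.ext h1)
  have hfind := Nat.find_spec hex
  have hmin : ∀ i < Nat.find hex, X i = X' i := fun i hi => by
    by_contra hcon
    exact Nat.find_min hex hi hcon
  have hmle : Nat.find hex ≤ j + k * n := by
    apply Nat.find_min' hex
    intro heq
    have h1 : cat hn x (j + k * n) = cat hn x' (j + k * n) := hinj heq
    rw [cat_add, cat_add] at h1
    exact hj (Subtype.ext h1)
  have hmge : k * n ≤ Nat.find hex := by
    by_contra hcon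
    push Not at hcon
    apply hfind
    have h1 : Nat.find hex / n < k := by
      rw [Nat.div_lt_iff_lt_mul hn]; exact hcon
    show e (cat hn x _) = e (cat hn x' _)
    unfold cat
    rw [hagree _ h1]
  set m := Nat.find hex with hm
  have hX1 : ∀ i, 1 ≤ X i := fun i => he _
  have hX1' : ∀ i, 1 ≤ X' i := fun i => he _
  have hXM : ∀ i, (X i : ℝ) ≤ M := fun i => hM _ (hmemT x i)
  have hXM' : ∀ i, (X' i : ℝ) ≤ M := fun i => hM _ (hmemT x' i)
  have h1 := dist_ge m X X' hX1 hX1' hmin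
  have h2 := cf_gap M (shn m X) (shn m X') (fun i => ⟨hX1 _, hXM _⟩) (fun i => ⟨hX1' _, hXM' _⟩)
    (by
      show X (0 + m) ≠ X' (0 + m)
      rw [zero_add]; exact hfind)
  -- the bound of the denominator
  have h3 : (st (1, 0) (pre X m)).1 ≤ (∏ i ∈ Finset.range k, (2 * Q (x i))) * (M + 1) ^ n := by
    obtain ⟨m', hm'⟩ : ∃ m', m = k * n + m' := ⟨m - k * n, by omega⟩
    have hm'n : m' ≤ n := by have := j.2; omega
    rw [hm', pre_add, st_append]
    have hg1 := good_one.st (pre_pos hX1 (k * n))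
    have h4 := st_le_pow M hM1 (pre (shn (k * n) X) m') (st (1, 0) (pre X (k * n))) hg1
      (pre_pos (x := shn (k * n) X) (fun i => hX1 _) m')
      (fun a ha => by
        obtain ⟨i, hi⟩ := mem_pre ha
        rw [← hi]; exact hXM _)
    rw [pre_length] at h4
    refine h4.trans ?_
    have h5 := block_prod e he hn x k
    have h6 : (M + 1) ^ m' ≤ (M + 1) ^ n := pow_le_pow_right₀ (by linarith) hm'n
    exact mul_le_mul h5 h6 (by positivity) (hg1.1.le.trans h5)
  have hQm : 0 < (st (1, 0) (pre X m)).1 := (good_one.st (pre_pos hX1 m)).1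
  have hprod : ∏ i ∈ Finset.range k, r (x i) = 1 / (∏ i ∈ Finset.range k, (2 * Q (x i))) ^ 2 := by
    rw [one_div, ← Finset.prod_pow, ← Finset.prod_inv_distrib]
    refine Finset.prod_congr rfl (fun i _ => ?_)
    simp only [hr, one_div]
    congr 1
    ring
  have hPpos : 0 < ∏ i ∈ Finset.range k, (2 * Q (x i)) :=
    Finset.prod_pos (fun i _ => by have := hQ1 (x i); linarith)
  set PP := ∏ i ∈ Finset.range k, (2 * Q (x i)) with hPP
  rw [hprod]
  refine le_trans ?_ h1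
  calc g * (1 / PP ^ 2) = 1 / ((M + 2) * (M + 1) ^ 2) / (4 * (PP * (M + 1) ^ n) ^ 2) := by
        simp only [hg]
        field_simp
    _ ≤ |cf (shn m X) - cf (shn m X')| / (4 * (st (1, 0) (pre X m)).1 ^ 2) := by
        apply div_le_div₀ (abs_nonneg _) h2 (by positivity)
        gcongr

end R195.CF
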