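import Pool.Agent.R195.CF.Key

/-!
# Gaps in the dimension spectrum
-/

set_option autoImplicit false

open Filter Topology Set
open scoped ENNReal NNReal

namespace R195.CF

open H313R3.BK

/-- uniform constants -/
theorem consts {q : ℕ} (hq : 2 ≤ q) (a : ℝ) (ha : Real.log 2 / (2 * Real.log q) < a) :
    ∃ (a' ρ : ℝ) (j : ℕ), 0 < a' ∧ a' < a ∧ 0 ≤ ρ ∧ ρ < 1 ∧ ∀ i ≥ j, ∀ s : ℝ, a' ≤ s → s ≤ 1 →
      ∑' l : Ioi i, ENNReal.ofReal (((q : ℝ) ^ (l : ℕ) / ((q : ℝ) ^ i + 2)) ^ (-(2 * s))) ≤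
        ENNReal.ofReal ρ := by
  have hq2 : (2 : ℝ) ≤ q := by exact_mod_cast hq
  have hlq : 0 < Real.log q := Real.log_pos (by linarith)
  have hl2 : 0 < Real.log 2 := Real.log_pos (by norm_num)
  have hσ : 0 < Real.log 2 / (2 * Real.log q) := by positivity
  obtain ⟨a', h1, h2⟩ := exists_between ha
  set x : ℝ := (q : ℝ) ^ (-(2 * a')) with hx
  have hx0 : 0 < x := by positivity
  have hx2 : x < 1 / 2 := by
    rw [hx, ← Real.log_lt_log_iff (by positivity) (by norm_num), Real.log_rpow (by positivity), one_div,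
      Real.log_inv]
    rw [div_lt_iff₀ (by positivity)] at h1
    linarith
  have hy : x / (1 - x) < 1 := by
    rw [div_lt_one (by linarith)]; linarith
  obtain ⟨ρ, h3, h4⟩ := exists_between hy
  have h5 : Tendsto (fun i : ℕ => (1 + 2 / (q : ℝ) ^ i) ^ 2 * (x / (1 - x))) atTop
      (𝓝 ((1 + 0) ^ 2 * (x / (1 - x)))) := by
    have h6 : Tendsto (fun i : ℕ => 2 / (q : ℝ) ^ i) atTop (𝓝 0) := by
      have h7 : Tendsto (fun i : ℕ => (q : ℝ) ^ i) atTop atTop :=
        tendsto_pow_atTop_atTop_of_one_lt (by linarith)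
      exact h7.const_div_atTop 2
    exact ((h6.const_add 1).pow 2).mul_const _
  rw [add_zero, one_pow, one_mul] at h5
  obtain ⟨j, hj⟩ := eventually_atTop.1 (h5.eventually (gt_mem_nhds h3))
  have hpos : 0 < x / (1 - x) := div_pos hx0 (by linarith)
  refine ⟨a', ρ, j, hσ.trans h1, h2, (hpos.trans h3).le, h4, fun i hi s hs1 hs2 => ?_⟩
  have h6 : (q : ℝ) ^ (-(2 * s)) ≤ x := by
    rw [hx]
    exact Real.rpow_le_rpow_of_exponent_le (by linarith) (by linarith)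
  refine (tail_sum hq s x ((1 + 2 / (q : ℝ) ^ i) ^ 2) i (hσ.le.trans (h1.le.trans hs1)) hs2 h6
    (by linarith) le_rfl).trans ?_
  exact ENNReal.ofReal_le_ofReal (hj i hi).le

/-- the key strict inequality -/
theorem key {q : ℕ} (hq : 2 ≤ q) (a : ℝ) (ha : Real.log 2 / (2 * Real.log q) < a) :
    ∃ j : ℕ, ∀ i ≥ j, ∀ F : Set ℕ, F ⊆ Iio i → a ≤ dm q (F ∪ Ioi i) →
      dm q (F ∪ Ioi i) < dm q (F ∪ {i}) := by
  obtain ⟨a', ρ, j, ha'0, ha'a, hρ0, hρ1, htail⟩ := consts hq a ha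
  refine ⟨j, fun i hi F hF hu => ?_⟩
  set u := dm q (F ∪ Ioi i) with hudef
  have hu1 : u ≤ 1 := dm_le_one _ _
  set κ : ℝ := 1 / (((q : ℝ) ^ i + 2) ^ 2 * (i + 1)) with hκ
  have hκ0 : 0 < κ := by positivity
  set δ : ℝ := (1 - ρ) / (1 + κ) with hδ
  have hδ0 : 0 < δ := div_pos (by linarith) (by linarith)
  have hsum : ρ + δ + δ * κ = 1 := by
    rw [hδ]
    have : 1 + κ ≠ 0 := by positivity
    field_simp
    ring
  have hθ1 : ρ + δ < 1 := by
    have : 0 < δ * κ := by positivity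
    linarith
  have hκ' : κ * (i + 1) ≤ 1 / ((q : ℝ) ^ i + 2) ^ 2 := by
    rw [hκ]
    have : (i : ℝ) + 1 ≠ 0 := by positivity
    apply le_of_eq
    field_simp
  have hfin : (F ∪ {i}).Finite := ((finite_Iio i).subset hF).union (finite_singleton i)
  set T := hfin.toFinset with hT
  have hTc : (T : Set ℕ) = F ∪ {i} := hfin.coe_toFinset
  obtain ⟨n0, hn0⟩ := exists_pow_lt_of_lt_one (show (0 : ℝ) < 1 / 32 by norm_num) hθ1
  set n := n0 + 1 with hn
  have hθ0 : 0 ≤ ρ + δ := by linarith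
  have hnθ : (ρ + δ) ^ n ≤ 1 / 32 := by
    rw [hn, pow_succ]
    have : (ρ + δ) ^ n0 * (ρ + δ) ≤ (ρ + δ) ^ n0 * 1 := by gcongr
    linarith
  have hbig : ∀ s, a' < s → s < u → 32 ≤ SR (pw q) T s n (1, 0) := by
    intro s hs1 hs2
    have h1 := one_le_S hq (F ∪ Ioi i) s (ha'0.trans hs1) hs2 n
    have h2 := cmp hq s ρ κ δ i (by linarith) (by linarith) hρ0 hδ0.le hκ0.le hsum hκ'
      (htail i hi s hs1.le (by linarith)) F hF n (1, 0) good_one
    rw [← hTc, S_eq_SR T s (pw_pos hq) n (1, 0) good_one, ← ENNReal.ofReal_pow hθ0,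
      ← ENNReal.ofReal_mul (by positivity)] at h2
    have h3 := h1.trans h2
    rw [ENNReal.one_le_ofReal] at h3
    have h4 := SR_nonneg T s (pw_pos hq) n (1, 0) good_one
    have h5 : (ρ + δ) ^ n * SR (pw q) T s n (1, 0) ≤ 1 / 32 * SR (pw q) T s n (1, 0) := by gcongr
    linarith
  have hcont := SR_continuous (e := pw q) T (pw_pos hq) n (1, 0) good_one
  have hu32 : 32 ≤ SR (pw q) T u n (1, 0) := by
    have h1 : Tendsto (fun s => SR (pw q) T s n (1, 0)) (𝓝[<] u) (𝓝 (SR (pw q) T u n (1, 0))) :=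
      (hcont.tendsto u).mono_left nhdsWithin_le_nhds
    refine ge_of_tendsto h1 ?_
    have h2 : ∀ᶠ s in 𝓝[<] u, s ∈ Ioo a' u := Ioo_mem_nhdsLT (by linarith)
    filter_upwards [h2] with s hs
    exact hbig s hs.1 hs.2
  have hev : ∀ᶠ s in 𝓝[>] u, 16 < SR (pw q) T s n (1, 0) :=
    ((hcont.tendsto u).mono_left nhdsWithin_le_nhds).eventually (lt_mem_nhds (by linarith))
  have hev2 : ∀ᶠ s in 𝓝[>] u, s ∈ Ioo u 2 := Ioo_mem_nhdsGT (by linarith)
  obtain ⟨s, hs1, hs2⟩ := (hev.and hev2).exists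
  have h6 : (4 : ℝ) ^ s ≤ 16 := by
    have : (4 : ℝ) ^ s ≤ (4 : ℝ) ^ (2 : ℝ) :=
      Real.rpow_le_rpow_of_exponent_le (by norm_num) hs2.2.le
    refine this.trans ?_
    norm_num
  have h7 := le_dm hq T s (by linarith [hs2.1]) n (by omega) (h6.trans hs1.le)
  rw [hTc] at h7
  exact hs2.1.trans_le h7

/-- lexicographic comparison -/
theorem lex {q : ℕ} {a : ℝ} {j : ℕ}
    (hkey : ∀ i ≥ j, ∀ F : Set ℕ, F ⊆ Iio i → a ≤ dm q (F ∪ Ioi i) →
      dm q (F ∪ Ioi i) < dm q (F ∪ {i}))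
    (T T' : Set ℕ) (i : ℕ) (hi : j ≤ i) (hag : ∀ l < i, (l ∈ T ↔ l ∈ T')) (h1 : i ∉ T) (h2 : i ∈ T')
    (ha : a ≤ dm q T) : dm q T < dm q T' := by
  set H : Set ℕ := T ∩ Iio i with hH
  have hs1 : T ⊆ H ∪ Ioi i := by
    intro l hl
    rcases lt_trichotomy l i with h | h | h
    · exact Or.inl ⟨hl, h⟩
    · rw [h] at hl; exact absurd hl h1
    · exact Or.inr h
  have hs2 : H ∪ {i} ⊆ T' := by
    rintro l (⟨hl, hli⟩ | hl)
    · exact (hag l hli).1 hl
    · rw [mem_singleton_iff.1 hl]; exact h2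
  have h3 := dm_mono q hs1
  have h4 := dm_mono q hs2
  have h5 := hkey i hi H inter_subset_right (ha.trans h3)
  linarith

/-- two different sets have a first difference -/
theorem first_diff (T T' : Set ℕ) (j : ℕ) (hag : ∀ l < j, (l ∈ T ↔ l ∈ T')) (hne : T ≠ T') :
    ∃ i, j ≤ i ∧ (∀ l < i, (l ∈ T ↔ l ∈ T')) ∧ ¬ (i ∈ T ↔ i ∈ T') := by
  classical
  have hex : ∃ i, ¬ (i ∈ T ↔ i ∈ T') := by
    by_contra hcon
    push Not at hcon
    exact hne (Set.ext hcon)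
  refine ⟨Nat.find hex, not_lt.1 (fun hcon => Nat.find_spec hex (hag _ hcon)), ?_, Nat.find_spec hex⟩
  · intro l hl
    by_contra hcon
    exact Nat.find_min hex hl hcon

/-- one gap -/
theorem gap {q : ℕ} {a : ℝ} {j : ℕ}
    (hkey : ∀ i ≥ j, ∀ F : Set ℕ, F ⊆ Iio i → a ≤ dm q (F ∪ Ioi i) →
      dm q (F ∪ Ioi i) < dm q (F ∪ {i}))
    (T1 T2 : Set ℕ) (hag : ∀ l < j, (l ∈ T1 ↔ l ∈ T2)) (ha : a ≤ dm q T1) (h12 : dm q T1 < dm q T2) :
    ∃ g1 g2 : ℝ, dm q T1 ≤ g1 ∧ g1 < g2 ∧ g2 ≤ dm q T2 ∧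
      ∀ T : Set ℕ, (∀ l < j, (l ∈ T ↔ l ∈ T1)) → dm q T ∉ Ioo g1 g2 := by
  obtain ⟨i, hji, hag', hdiff⟩ := first_diff T1 T2 j hag (fun h => by rw [h] at h12; exact lt_irrefl _ h12)
  have hi1 : i ∉ T1 := by
    intro h1
    have h2 : i ∉ T2 := fun h => hdiff ⟨fun _ => h, fun _ => h1⟩
    have := lex hkey T2 T1 i hji (fun l hl => (hag' l hl).symm) h2 h1 (ha.trans h12.le)
    linarith
  have hi2 : i ∈ T2 := by
    by_contra h2
    exact hdiff ⟨fun h => absurd h hi1, fun h => absurd h h2⟩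
  set H : Set ℕ := T1 ∩ Iio i with hH
  have hs1 : T1 ⊆ H ∪ Ioi i := by
    intro l hl
    rcases lt_trichotomy l i with h | h | h
    · exact Or.inl ⟨hl, h⟩
    · rw [h] at hl; exact absurd hl hi1
    · exact Or.inr h
  have hs2 : H ∪ {i} ⊆ T2 := by
    rintro l (⟨hl, hli⟩ | hl)
    · exact (hag' l hli).1 hl
    · rw [mem_singleton_iff.1 hl]; exact hi2
  have m1 := dm_mono q hs1
  have m2 := dm_mono q hs2
  have hk := hkey i hji H inter_subset_right (ha.trans m1)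
  refine ⟨dm q (H ∪ Ioi i), dm q (H ∪ {i}), m1, hk, m2, fun T hT hmem => ?_⟩
  obtain ⟨n1, n2⟩ := hmem
  by_cases hcase : ∀ l < i, (l ∈ T ↔ l ∈ T1)
  · by_cases hiT : i ∈ T
    · have : H ∪ {i} ⊆ T := by
        rintro l (⟨hl, hli⟩ | hl)
        · exact (hcase l hli).2 hl
        · rw [mem_singleton_iff.1 hl]; exact hiT
      have := dm_mono q this
      linarith
    · have : T ⊆ H ∪ Ioi i := by
        intro l hl
        rcases lt_trichotomy l i with h | h | h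
        · exact Or.inl ⟨(hcase l h).1 hl, h⟩
        · rw [h] at hl; exact absurd hl hiT
        · exact Or.inr h
      have := dm_mono q this
      linarith
  · have hne : T ≠ T1 := fun h => hcase (fun l _ => by rw [h])
    obtain ⟨k, hjk, hagk, hdk⟩ := first_diff T T1 j hT hne
    have hki : k < i := by
      by_contra hcon
      push Not at hcon
      exact hcase (fun l hl => hagk l (by omega))
    by_cases hkT : k ∈ T
    · have hkT1 : k ∉ T1 := fun h => hdk ⟨fun _ => h, fun _ => hkT⟩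
      have := lex hkey (H ∪ {i}) T k hjk
        (fun l hl => by
          rw [hagk l hl]
          constructor
          · rintro (h | h)
            · exact h.1
            · have : l = i := h
              omega
          · intro h
            exact Or.inl ⟨h, show l < i by omega⟩)
        (by
          rintro (h | h)
          · exact hkT1 h.1
          · have : k = i := h
            omega) hkT (by linarith)
      linarith
    · have hkT1 : k ∈ T1 := by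
        by_contra h
        exact hdk ⟨fun h' => absurd h' hkT, fun h' => absurd h' h⟩
      rcases le_or_gt a (dm q T) with haT | haT
      · have := lex hkey T (H ∪ Ioi i) k hjk
          (fun l hl => by
            rw [hagk l hl]
            constructor
            · intro h
              exact Or.inl ⟨h, show l < i by omega⟩
            · rintro (h | h)
              · exact h.1
              · have : i < l := h
                omega) hkT (Or.inl ⟨hkT1, hki⟩) haT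
        linarith
      · linarith

/-- nowhere density, one class at a time -/
theorem avoid {q : ℕ} {a : ℝ} {j : ℕ}
    (hkey : ∀ i ≥ j, ∀ F : Set ℕ, F ⊆ Iio i → a ≤ dm q (F ∪ Ioi i) →
      dm q (F ∪ Ioi i) < dm q (F ∪ {i})) (C : Set ℕ → Prop)
    (hC : ∀ T T', C T → C T' → ∀ l < j, (l ∈ T ↔ l ∈ T'))
    (x y : ℝ) (hax : a ≤ x) (hxy : x < y) :
    ∃ x' y' : ℝ, x ≤ x' ∧ x' < y' ∧ y' ≤ y ∧ ∀ T, C T → dm q T ∉ Ioo x' y' := by
  by_cases h : ∃ T1 T2, C T1 ∧ C T2 ∧ dm q T1 ∈ Ioo x y ∧ dm q T2 ∈ Ioo x y ∧ dm q T1 < dm q T2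
  · obtain ⟨T1, T2, c1, c2, m1, m2, h12⟩ := h
    obtain ⟨g1, g2, k1, k2, k3, k4⟩ := gap hkey T1 T2 (hC T1 T2 c1 c2) (hax.trans m1.1.le) h12
    exact ⟨g1, g2, m1.1.le.trans k1, k2, k3.trans m2.2.le, fun T hT => k4 T (hC T T1 hT c1)⟩
  · push Not at h
    by_cases h1 : ∃ T1, C T1 ∧ dm q T1 ∈ Ioo x y
    · obtain ⟨T1, c1, m1⟩ := h1
      refine ⟨x, dm q T1, le_rfl, m1.1, m1.2.le, fun T hT hmem => ?_⟩
      have := h T T1 hT c1 ⟨hmem.1, hmem.2.trans m1.2⟩ m1
      linarith [hmem.2]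
    · push Not at h1
      exact ⟨x, y, le_rfl, hxy, le_rfl, fun T hT => h1 T hT⟩

/-- the spectrum is nowhere dense to the right of `log 2 / (2 log q)` -/
theorem nowhere {q : ℕ} (hq : 2 ≤ q) (x y : ℝ) (hx : Real.log 2 / (2 * Real.log q) < x) (hxy : x < y) :
    ∃ x' y' : ℝ, x ≤ x' ∧ x' < y' ∧ y' ≤ y ∧ ∀ T : Set ℕ, dm q T ∉ Ioo x' y' := by
  classical
  obtain ⟨j, hkey⟩ := key hq x hx
  have hind : ∀ P : Finset (Finset ℕ), ∃ x' y' : ℝ, x ≤ x' ∧ x' < y' ∧ y' ≤ y ∧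
      ∀ G ∈ P, ∀ T : Set ℕ, (∀ l < j, (l ∈ T ↔ l ∈ G)) → dm q T ∉ Ioo x' y' := by
    intro P
    induction P using Finset.induction_on with
    | empty => exact ⟨x, y, le_rfl, hxy, le_rfl, by simp⟩
    | insert G P _ ih =>
      obtain ⟨x1, y1, h1, h2, h3, h4⟩ := ih
      obtain ⟨x2, y2, k1, k2, k3, k4⟩ := avoid hkey (fun T => ∀ l < j, (l ∈ T ↔ l ∈ G))
        (fun T T' hT hT' l hl => (hT l hl).trans (hT' l hl).symm) x1 y1 h1 h2
      refine ⟨x2, y2, h1.trans k1, k2, k3.trans h3, fun G' hG' T hT hmem => ?_⟩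
      rcases Finset.mem_insert.1 hG' with rfl | hG'
      · exact k4 T hT hmem
      · exact h4 G' hG' T hT ⟨k1.trans_lt hmem.1, hmem.2.trans_le k3⟩
  obtain ⟨x', y', h1, h2, h3, h4⟩ := hind (Finset.range j).powerset
  refine ⟨x', y', h1, h2, h3, fun T => ?_⟩
  refine h4 ((Finset.range j).filter (fun l => l ∈ T)) ?_ T (fun l hl => ?_)
  · rw [Finset.mem_powerset]
    exact Finset.filter_subset _ _
  · simp [hl]

end R195.CF
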