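import Pool.Agent.R195.CF.Block

/-!
# The key comparison
-/

set_option autoImplicit false

open Filter Topology Set
open scoped ENNReal NNReal

namespace R195.CF

open H313R3.BK

/-- the alphabet of powers -/
def pw (q : ℕ) (l : ℕ) : ℕ := q ^ l

/-- the dimension as a real number -/
noncomputable def dm (q : ℕ) (T : Set ℕ) : ℝ := (dimH (JJ (pw q) T)).toReal

theorem pw_pos {q : ℕ} (hq : 2 ≤ q) (l : ℕ) : 1 ≤ pw q l := Nat.one_le_pow _ _ (by omega)

theorem pw_inj {q : ℕ} (hq : 2 ≤ q) : Function.Injective (pw q) := Nat.pow_right_injective hq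

theorem dim_le_one (A : Set ℝ) : dimH A ≤ 1 := by
  refine (dimH_mono (subset_univ A)).trans ?_
  rw [Real.dimH_univ]

theorem dim_ne_top (A : Set ℝ) : dimH A ≠ ∞ := ne_top_of_le_ne_top ENNReal.one_ne_top (dim_le_one A)

theorem dm_le_one (q : ℕ) (T : Set ℕ) : dm q T ≤ 1 := by
  have := ENNReal.toReal_mono ENNReal.one_ne_top (dim_le_one (JJ (pw q) T))
  unfold dm
  simpa using this

theorem dm_mono (q : ℕ) {T T' : Set ℕ} (h : T ⊆ T') : dm q T ≤ dm q T' :=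
  ENNReal.toReal_mono (dim_ne_top _) (dimH_mono (JJ_mono _ h))

theorem one_le_S {q : ℕ} (hq : 2 ≤ q) (T : Set ℕ) (s : ℝ) (hs : 0 < s) (h : s < dm q T) (n : ℕ) :
    1 ≤ S (pw q) T s n (1, 0) := by
  by_contra hcon
  push Not at hcon
  have h1 := upper (pw q) (pw_pos hq) T s hs n hcon
  have h2 := ENNReal.toReal_mono ENNReal.ofReal_ne_top h1
  rw [ENNReal.toReal_ofReal hs.le] at h2
  have h3 : dm q T ≤ s := h2
  linarith

theorem le_dm {q : ℕ} (hq : 2 ≤ q) (T : Finset ℕ) (s : ℝ) (hs : 0 < s) (n : ℕ) (hn : 0 < n)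
    (h : (4 : ℝ) ^ s ≤ SR (pw q) T s n (1, 0)) : s ≤ dm q (T : Set ℕ) := by
  have h1 := lower (pw q) (pw_pos hq) (pw_inj hq) T s hs n hn h
  have h2 := ENNReal.toReal_mono (dim_ne_top _) h1
  rw [ENNReal.toReal_ofReal hs.le] at h2
  exact h2

section cmp

variable {q : ℕ} (hq : 2 ≤ q)
include hq

theorem cmp1 (T : Set ℕ) (s : ℝ) (hs : 0 ≤ s) (n i l : ℕ) (p : ℝ × ℝ) (hp : Good p) :
    S (pw q) T s n (stp p (pw q l)) ≤
      ENNReal.ofReal (((q : ℝ) ^ l / ((q : ℝ) ^ i + 2)) ^ (-(2 * s))) *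
        S (pw q) T s n (stp p (pw q i)) := by
  have hq' : (0 : ℝ) < q := by positivity
  have hc : 0 < (q : ℝ) ^ l / ((q : ℝ) ^ i + 2) := by positivity
  rw [← S_smul T s _ hc (pw_pos hq) n _ (hp.stp (pw_pos hq i))]
  have hgood : Good ((q : ℝ) ^ l / ((q : ℝ) ^ i + 2) * (stp p (pw q i)).1,
      (q : ℝ) ^ l / ((q : ℝ) ^ i + 2) * (stp p (pw q i)).2) := by
    obtain ⟨g1, g2, g3⟩ := hp.stp (pw_pos hq i)
    exact ⟨by positivity, by positivity, mul_le_mul_of_nonneg_left g3 hc.le⟩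
  refine S_mono T s hs (pw_pos hq) n _ _ hgood ?_
  obtain ⟨g1, g2, g3⟩ := hp
  have e1 : ∀ k, (stp p (pw q k)).1 = p.1 * (q : ℝ) ^ k + p.2 := by
    intro k; simp [stp, pw]
  have e2 : ∀ k, (stp p (pw q k)).2 = p.1 := fun k => rfl
  have h1 : (q : ℝ) ^ l / ((q : ℝ) ^ i + 2) * (p.1 * ((q : ℝ) ^ i + 2)) = p.1 * (q : ℝ) ^ l := by
    field_simp
  have h2 : (q : ℝ) ^ l / ((q : ℝ) ^ i + 2) * (p.1 * (q : ℝ) ^ i + p.2) ≤ p.1 * (q : ℝ) ^ l := by
    rw [← h1]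
    apply mul_le_mul_of_nonneg_left _ hc.le
    linarith
  have h3 : (q : ℝ) ^ l / ((q : ℝ) ^ i + 2) * (p.1 * (q : ℝ) ^ i + p.2 + p.1) ≤ p.1 * (q : ℝ) ^ l := by
    rw [← h1]
    apply mul_le_mul_of_nonneg_left _ hc.le
    linarith
  constructor
  · simp only [e1]
    linarith
  · simp only [e1, e2]
    rw [← mul_add]
    linarith

theorem cmp2 (T : Set ℕ) (s : ℝ) (hs : 0 ≤ s) (hs1 : s ≤ 1) (n i l : ℕ) (p : ℝ × ℝ) (hp : Good p) :
    ENNReal.ofReal (1 / ((q : ℝ) ^ i + 2) ^ 2) * S (pw q) T s n (stp p (pw q l)) ≤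
      S (pw q) T s n (stp p (pw q i)) := by
  have hq' : (0 : ℝ) < q := by positivity
  have hc : 0 < (q : ℝ) ^ i + 2 := by positivity
  have h0 : ENNReal.ofReal (1 / ((q : ℝ) ^ i + 2) ^ 2) ≤
      ENNReal.ofReal (((q : ℝ) ^ i + 2) ^ (-(2 * s))) := by
    apply ENNReal.ofReal_le_ofReal
    rw [one_div, ← Real.rpow_natCast, ← Real.rpow_neg hc.le]
    apply Real.rpow_le_rpow_of_exponent_le
    · have : 0 < (q : ℝ) ^ i := by positivity
      linarith
    · push_cast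
      linarith
  refine (mul_le_mul_left h0 _).trans ?_
  rw [← S_smul T s _ hc (pw_pos hq) n _ (hp.stp (pw_pos hq l))]
  refine S_mono T s hs (pw_pos hq) n _ _ (hp.stp (pw_pos hq i)) ?_
  obtain ⟨g1, g2, g3⟩ := hp
  have e1 : ∀ k, (stp p (pw q k)).1 = p.1 * (q : ℝ) ^ k + p.2 := by
    intro k; simp [stp, pw]
  have e2 : ∀ k, (stp p (pw q k)).2 = p.1 := fun k => rfl
  have h1 : (1 : ℝ) ≤ (q : ℝ) ^ l := one_le_pow₀ (by
    have : (2 : ℝ) ≤ q := by exact_mod_cast hq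
    linarith)
  have h2 : p.1 ≤ p.1 * (q : ℝ) ^ l + p.2 := by nlinarith
  have h3 : ((q : ℝ) ^ i + 2) * p.1 ≤ ((q : ℝ) ^ i + 2) * (p.1 * (q : ℝ) ^ l + p.2) :=
    mul_le_mul_of_nonneg_left h2 hc.le
  have h4 : 0 ≤ ((q : ℝ) ^ i + 2) * p.1 := by positivity
  constructor
  · simp only [e1]
    nlinarith
  · simp only [e1, e2]
    nlinarith

/-- the sum over the tail -/
theorem tail_sum (s x C : ℝ) (i : ℕ) (hs : 0 ≤ s) (hs1 : s ≤ 1) (hx : (q : ℝ) ^ (-(2 * s)) ≤ x)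
    (hx1 : x < 1) (hC : (1 + 2 / (q : ℝ) ^ i) ^ 2 ≤ C) :
    ∑' l : Ioi i, ENNReal.ofReal (((q : ℝ) ^ (l : ℕ) / ((q : ℝ) ^ i + 2)) ^ (-(2 * s))) ≤
      ENNReal.ofReal (C * (x / (1 - x))) := by
  have hq' : (0 : ℝ) < q := by positivity
  have hx0 : 0 ≤ x := (Real.rpow_nonneg hq'.le _).trans hx
  have hC0 : 0 ≤ C := (sq_nonneg _).trans hC
  have hr : Ioi i = range (fun m : ℕ => i + 1 + m) := by
    ext l
    simp only [mem_Ioi, mem_range]
    constructor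
    · intro h; exact ⟨l - (i + 1), by omega⟩
    · rintro ⟨m, rfl⟩; omega
  rw [hr, tsum_range (g := fun m : ℕ => i + 1 + m)
    (fun l : ℕ => ENNReal.ofReal (((q : ℝ) ^ l / ((q : ℝ) ^ i + 2)) ^ (-(2 * s))))
    (fun a b h => by
      have : i + 1 + a = i + 1 + b := h
      omega)]
  have hsummable : Summable (fun m : ℕ => C * (x * x ^ m)) :=
    ((summable_geometric_of_lt_one hx0 hx1).mul_left x).mul_left C
  have hsum : ∑' m : ℕ, C * (x * x ^ m) = C * (x / (1 - x)) := by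
    rw [tsum_mul_left, tsum_mul_left, tsum_geometric_of_lt_one hx0 hx1]
    rfl
  rw [← hsum, ENNReal.ofReal_tsum_of_nonneg (fun m => by positivity) hsummable]
  refine ENNReal.tsum_le_tsum (fun m => ENNReal.ofReal_le_ofReal ?_)
  have e1 : (q : ℝ) ^ (i + 1 + m) / ((q : ℝ) ^ i + 2) = (1 + 2 / (q : ℝ) ^ i)⁻¹ * (q : ℝ) ^ (m + 1) := by
    field_simp
    ring
  rw [e1, Real.mul_rpow (by positivity) (by positivity)]
  have h1 : ((1 + 2 / (q : ℝ) ^ i)⁻¹) ^ (-(2 * s)) ≤ C := by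
    rw [Real.inv_rpow (by positivity), ← Real.rpow_neg (by positivity), neg_neg]
    refine le_trans ?_ hC
    have h0 : (1 + 2 / (q : ℝ) ^ i) ^ 2 = (1 + 2 / (q : ℝ) ^ i) ^ (2 : ℝ) := by
      rw [← Real.rpow_natCast (1 + 2 / (q : ℝ) ^ i) 2]
      norm_num
    rw [h0]
    apply Real.rpow_le_rpow_of_exponent_le
    · have : 0 < 2 / (q : ℝ) ^ i := by positivity
      linarith
    · linarith
  have h2 : ((q : ℝ) ^ (m + 1)) ^ (-(2 * s)) ≤ x * x ^ m := by
    rw [← pow_succ', ← Real.rpow_natCast (q : ℝ), ← Real.rpow_mul hq'.le, mul_comm, Real.rpow_mul hq'.le,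
      Real.rpow_natCast]
    exact pow_le_pow_left₀ (Real.rpow_nonneg hq'.le _) hx _
  exact mul_le_mul h1 h2 (by positivity) hC0

/-- the comparison -/
theorem cmp (s ρ κ δ : ℝ) (i : ℕ) (hs : 0 ≤ s) (hs1 : s ≤ 1) (hρ : 0 ≤ ρ) (hδ : 0 ≤ δ) (hκ : 0 ≤ κ)
    (hsum : ρ + δ + δ * κ = 1) (hκ' : κ * (i + 1) ≤ 1 / ((q : ℝ) ^ i + 2) ^ 2)
    (htail : ∑' l : Ioi i, ENNReal.ofReal (((q : ℝ) ^ (l : ℕ) / ((q : ℝ) ^ i + 2)) ^ (-(2 * s))) ≤
      ENNReal.ofReal ρ)
    (F : Set ℕ) (hF : F ⊆ Iio i) (n : ℕ) : ∀ p : ℝ × ℝ, Good p →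
      S (pw q) (F ∪ Ioi i) s n p ≤ ENNReal.ofReal (ρ + δ) ^ n * S (pw q) (F ∪ {i}) s n p := by
  induction n with
  | zero =>
    intro p _
    rw [S_zero, S_zero, pow_zero, one_mul]
  | succ n ih =>
    intro p hp
    rw [S_succ, S_succ, pow_succ, mul_assoc]
    set f : ℕ → ℝ≥0∞ := fun l => S (pw q) (F ∪ {i}) s n (stp p (pw q l)) with hf
    have h1 : ∑' l : ↑(F ∪ Ioi i), S (pw q) (F ∪ Ioi i) s n (stp p (pw q l)) ≤
        ENNReal.ofReal (ρ + δ) ^ n * ∑' l : ↑(F ∪ Ioi i), f l := by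
      rw [← ENNReal.tsum_mul_left]
      exact ENNReal.tsum_le_tsum (fun l => ih _ (hp.stp (pw_pos hq l)))
    refine h1.trans ?_
    refine mul_le_mul_right ?_ _
    -- the one step inequality
    have h2 : ∑' l : ↑(F ∪ Ioi i), f l ≤ ∑' l : F, f l + ∑' l : Ioi i, f l :=
      ENNReal.tsum_union_le _ _ _
    have hdisj : Disjoint F {i} := by
      rw [Set.disjoint_singleton_right]
      intro h
      exact absurd (hF h) (lt_irrefl i)
    have h3 : ∑' l : ↑(F ∪ {i}), f l = ∑' l : F, f l + f i := by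
      rw [ENNReal.summable.tsum_union_disjoint hdisj ENNReal.summable]
      congr 1
      exact tsum_singleton i f
    have h4 : ∑' l : Ioi i, f l ≤ ENNReal.ofReal ρ * f i := by
      calc ∑' l : Ioi i, f l ≤ ∑' l : Ioi i,
            ENNReal.ofReal (((q : ℝ) ^ (l : ℕ) / ((q : ℝ) ^ i + 2)) ^ (-(2 * s))) * f i :=
            ENNReal.tsum_le_tsum (fun l => cmp1 hq _ s hs n i l p hp)
        _ = (∑' l : Ioi i,
            ENNReal.ofReal (((q : ℝ) ^ (l : ℕ) / ((q : ℝ) ^ i + 2)) ^ (-(2 * s)))) * f i :=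
            ENNReal.tsum_mul_right
        _ ≤ _ := by gcongr
    have h5 : ENNReal.ofReal κ * ∑' l : F, f l ≤ f i := by
      have g1 : ∑' l : F, f l ≤ ∑ l ∈ Finset.range i, f l := by
        rw [← Finset.tsum_subtype']
        refine ENNReal.tsum_mono_subtype f ?_
        intro l hl
        simpa using hF hl
      have g2 : ENNReal.ofReal (κ * (i + 1)) * ∑ l ∈ Finset.range i, f l ≤ ((i : ℕ) : ℝ≥0∞) * f i := by
        rw [Finset.mul_sum]
        calc ∑ l ∈ Finset.range i, ENNReal.ofReal (κ * (i + 1)) * f l ≤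
            ∑ l ∈ Finset.range i, f i := by
              refine Finset.sum_le_sum (fun l _ => ?_)
              refine le_trans ?_ (cmp2 hq (F ∪ {i}) s hs hs1 n i l p hp)
              exact mul_le_mul_left (ENNReal.ofReal_le_ofReal hκ') _
          _ = _ := by rw [Finset.sum_const, Finset.card_range, nsmul_eq_mul]
      have g3 : ENNReal.ofReal (κ * (i + 1)) = ((i + 1 : ℕ) : ℝ≥0∞) * ENNReal.ofReal κ := by
        rw [mul_comm κ, ENNReal.ofReal_mul (by positivity)]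
        congr 1
        rw [← ENNReal.ofReal_natCast]
        push_cast
        rfl
      have g4 : ((i + 1 : ℕ) : ℝ≥0∞) * (ENNReal.ofReal κ * ∑' l : F, f l) ≤
          ((i + 1 : ℕ) : ℝ≥0∞) * f i := by
        rw [← mul_assoc, ← g3]
        refine (mul_le_mul_right g1 _).trans (g2.trans ?_)
        gcongr
        omega
      exact (ENNReal.mul_le_mul_iff_right (by simp) (ENNReal.natCast_ne_top _)).1 g4
    have hone : ENNReal.ofReal (ρ + δ) + ENNReal.ofReal δ * ENNReal.ofReal κ = 1 := by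
      rw [← ENNReal.ofReal_mul hδ, ← ENNReal.ofReal_add (by positivity) (by positivity), hsum,
        ENNReal.ofReal_one]
    rw [h3]
    calc ∑' l : ↑(F ∪ Ioi i), f l ≤ ∑' l : F, f l + ∑' l : Ioi i, f l := h2
      _ ≤ (ENNReal.ofReal (ρ + δ) + ENNReal.ofReal δ * ENNReal.ofReal κ) * ∑' l : F, f l +
          ENNReal.ofReal ρ * f i := by
          rw [hone, one_mul]
          gcongr
      _ = ENNReal.ofReal (ρ + δ) * ∑' l : F, f l + (ENNReal.ofReal ρ * f i + ENNReal.ofReal δ *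
          (ENNReal.ofReal κ * ∑' l : F, f l)) := by ring
      _ ≤ ENNReal.ofReal (ρ + δ) * ∑' l : F, f l + (ENNReal.ofReal ρ * f i + ENNReal.ofReal δ * f i) := by
          gcongr
      _ = ENNReal.ofReal (ρ + δ) * (∑' l : F, f l + f i) := by
          rw [ENNReal.ofReal_add hρ hδ]
          ring

end cmp

end R195.CF
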