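import Pool.Agent.R195.CF.Basic

/-!
# The sums over words
-/

set_option autoImplicit false

open Filter Topology
open scoped ENNReal NNReal

namespace R195.CF

variable (e : ℕ → ℕ)

/-- weighted sums over words -/
noncomputable def S (T : Set ℕ) (s : ℝ) : ℕ → ℝ × ℝ → ℝ≥0∞
  | 0, p => ENNReal.ofReal (p.1 ^ (-(2 * s)))
  | n + 1, p => ∑' l : T, S T s n (stp p (e l))

theorem S_zero (T : Set ℕ) (s : ℝ) (p : ℝ × ℝ) : S e T s 0 p = ENNReal.ofReal (p.1 ^ (-(2 * s))) := rfl

theorem S_succ (T : Set ℕ) (s : ℝ) (n : ℕ) (p : ℝ × ℝ) :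
    S e T s (n + 1) p = ∑' l : T, S e T s n (stp p (e l)) := rfl

/-- the word formula -/
theorem S_words (T : Set ℕ) (s : ℝ) (n : ℕ) : ∀ p : ℝ × ℝ,
    S e T s n p = ∑' w : Fin n → T,
      ENNReal.ofReal ((st p (List.ofFn (fun i => e (w i)))).1 ^ (-(2 * s))) := by
  induction n with
  | zero =>
    intro p
    rw [S_zero, tsum_eq_single (default : Fin 0 → T)]
    · simp [st_nil]
    · intro w hw
      exact absurd (Subsingleton.elim w default) hw
  | succ n ih =>
    intro p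
    rw [S_succ]
    rw [← (Fin.consEquiv (fun _ : Fin (n + 1) => T)).tsum_eq,
      ENNReal.tsum_prod (f := fun (a : T) (w : Fin n → T) =>
        ENNReal.ofReal ((st p (List.ofFn (fun i => e (((Fin.consEquiv (fun _ : Fin (n + 1) => T))
          (a, w)) i)))).1 ^ (-(2 * s))))]
    refine tsum_congr (fun a => ?_)
    rw [ih]
    refine tsum_congr (fun w => ?_)
    congr 3
    rw [List.ofFn_succ, st_cons]
    rfl

variable {e}

/-- scaling -/
theorem S_smul (T : Set ℕ) (s : ℝ) (c : ℝ) (hc : 0 < c) (he : ∀ l, 1 ≤ e l) (n : ℕ) : ∀ p : ℝ × ℝ, Good p →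
    S e T s n (c * p.1, c * p.2) = ENNReal.ofReal (c ^ (-(2 * s))) * S e T s n p := by
  induction n with
  | zero =>
    intro p hp
    rw [S_zero, S_zero, ← ENNReal.ofReal_mul (by positivity)]
    congr 1
    rw [Real.mul_rpow hc.le hp.1.le]
  | succ n ih =>
    intro p hp
    rw [S_succ, S_succ, ← ENNReal.tsum_mul_left]
    refine tsum_congr (fun l => ?_)
    rw [stp_smul, ih _ (hp.stp (he l))]

/-- monotonicity -/
theorem S_mono (T : Set ℕ) (s : ℝ) (hs : 0 ≤ s) (he : ∀ l, 1 ≤ e l) (n : ℕ) : ∀ p p' : ℝ × ℝ, Good p →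
    Le p p' → S e T s n p' ≤ S e T s n p := by
  induction n with
  | zero =>
    intro p p' hp h
    rw [S_zero, S_zero]
    apply ENNReal.ofReal_le_ofReal
    exact Real.rpow_le_rpow_of_nonpos hp.1 h.1 (by linarith)
  | succ n ih =>
    intro p p' hp h
    rw [S_succ, S_succ]
    exact ENNReal.tsum_le_tsum (fun l => ih _ _ (hp.stp (he l)) (h.stp (he l)))

theorem S_le (T : Set ℕ) (s : ℝ) (hs : 0 ≤ s) (he : ∀ l, 1 ≤ e l) (n : ℕ) (p : ℝ × ℝ) (hp : Good p) :
    S e T s n p ≤ ENNReal.ofReal (p.1 ^ (-(2 * s))) * S e T s n (1, 0) := by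
  have h1 := S_smul T s p.1 hp.1 he n (1, 0) good_one
  rw [← h1]
  refine S_mono T s hs he n _ _ ?_ (one_le hp)
  have := hp.1
  refine ⟨?_, ?_, ?_⟩ <;> simp <;> linarith

/-- submultiplicativity -/
theorem S_add (T : Set ℕ) (s : ℝ) (hs : 0 ≤ s) (he : ∀ l, 1 ≤ e l) (m n : ℕ) : ∀ p : ℝ × ℝ, Good p →
    S e T s (m + n) p ≤ S e T s m p * S e T s n (1, 0) := by
  induction m with
  | zero =>
    intro p hp
    rw [Nat.zero_add, S_zero]
    exact S_le T s hs he n p hp
  | succ m ih =>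
    intro p hp
    have e1 : m + 1 + n = (m + n) + 1 := by omega
    rw [e1, S_succ, S_succ, ← ENNReal.tsum_mul_right]
    exact ENNReal.tsum_le_tsum (fun l => ih _ (hp.stp (he l)))

theorem S_mul (T : Set ℕ) (s : ℝ) (hs : 0 ≤ s) (he : ∀ l, 1 ≤ e l) (k n : ℕ) :
    S e T s (k * n) (1, 0) ≤ S e T s n (1, 0) ^ k := by
  induction k with
  | zero => simp [S_zero]
  | succ k ih =>
    have e1 : (k + 1) * n = k * n + n := by ring
    rw [e1, pow_succ]
    refine (S_add T s hs he (k * n) n (1, 0) good_one).trans ?_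
    gcongr

/-- the real version for finite alphabets -/
noncomputable def SR (e : ℕ → ℕ) (T : Finset ℕ) (s : ℝ) : ℕ → ℝ × ℝ → ℝ
  | 0, p => p.1 ^ (-(2 * s))
  | n + 1, p => ∑ l ∈ T, SR e T s n (stp p (e l))

theorem SR_nonneg (T : Finset ℕ) (s : ℝ) (he : ∀ l, 1 ≤ e l) (n : ℕ) : ∀ p : ℝ × ℝ, Good p →
    0 ≤ SR e T s n p := by
  induction n with
  | zero => intro p hp; exact Real.rpow_nonneg hp.1.le _
  | succ n ih => intro p hp; exact Finset.sum_nonneg (fun l _ => ih _ (hp.stp (he l)))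

theorem S_eq_SR (T : Finset ℕ) (s : ℝ) (he : ∀ l, 1 ≤ e l) (n : ℕ) : ∀ p : ℝ × ℝ, Good p →
    S e (T : Set ℕ) s n p = ENNReal.ofReal (SR e T s n p) := by
  induction n with
  | zero => intro p _; rfl
  | succ n ih =>
    intro p hp
    have e1 : SR e T s (n + 1) p = ∑ l ∈ T, SR e T s n (stp p (e l)) := rfl
    rw [S_succ, e1, ENNReal.ofReal_sum_of_nonneg (fun l _ => SR_nonneg T s he n _ (hp.stp (he l)))]
    have e2 := Finset.tsum_subtype' T (fun l => S e (T : Set ℕ) s n (stp p (e l)))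
    rw [e2]
    exact Finset.sum_congr rfl (fun l _ => ih _ (hp.stp (he l)))

theorem SR_words (T : Finset ℕ) (s : ℝ) (n : ℕ) : ∀ p : ℝ × ℝ,
    SR e T s n p = ∑ w : Fin n → T, (st p (List.ofFn (fun i => e (w i)))).1 ^ (-(2 * s)) := by
  induction n with
  | zero =>
    intro p
    rw [Fintype.sum_unique]
    simp [st_nil, SR]
  | succ n ih =>
    intro p
    have e1 : SR e T s (n + 1) p = ∑ l ∈ T, SR e T s n (stp p (e l)) := rfl
    rw [e1]
    rw [← (Fin.consEquiv (fun _ : Fin (n + 1) => T)).sum_comp, Fintype.sum_prod_type]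
    rw [← Finset.sum_coe_sort T (fun l => SR e T s n (stp p (e l)))]
    refine Finset.sum_congr rfl (fun a _ => ?_)
    rw [ih]
    refine Finset.sum_congr rfl (fun w _ => ?_)
    congr 2
    rw [List.ofFn_succ, st_cons]
    rfl

theorem SR_continuous (T : Finset ℕ) (he : ∀ l, 1 ≤ e l) (n : ℕ) : ∀ p : ℝ × ℝ, Good p →
    Continuous (fun s => SR e T s n p) := by
  induction n with
  | zero =>
    intro p hp
    have : (fun s : ℝ => SR e T s 0 p) = fun s => p.1 ^ (-(2 * s)) := rfl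
    rw [this]
    exact (Real.continuous_const_rpow hp.1.ne').comp (by fun_prop)
  | succ n ih =>
    intro p hp
    have : (fun s : ℝ => SR e T s (n + 1) p) = fun s => ∑ l ∈ T, SR e T s n (stp p (e l)) := rfl
    rw [this]
    exact continuous_finsetSum _ (fun l _ => ih _ (hp.stp (he l)))

end R195.CF
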