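import Pool.Agent.R195.CF.Sums

/-!
# Upper bound for the dimension
-/

set_option autoImplicit false

open Filter Topology MeasureTheory
open scoped ENNReal NNReal

namespace R195.CF

open H313R3.BK

/-- the set of continued fractions with digits `e l`, `l ∈ T` -/
def JJ (e : ℕ → ℕ) (T : Set ℕ) : Set ℝ := {y | ∃ x : ℕ → ℕ, (∀ i, x i ∈ T) ∧ y = cf (fun i => e (x i))}

theorem JJ_mono (e : ℕ → ℕ) {T T' : Set ℕ} (h : T ⊆ T') : JJ e T ⊆ JJ e T' := by
  rintro y ⟨x, hx, rfl⟩
  exact ⟨x, fun i => h (hx i), rfl⟩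

theorem upper (e : ℕ → ℕ) (he : ∀ l, 1 ≤ e l) (T : Set ℕ) (s : ℝ) (hs : 0 < s) (n : ℕ)
    (h : S e T s n (1, 0) < 1) : dimH (JJ e T) ≤ ENNReal.ofReal s := by
  have hn : 1 ≤ n := by
    rcases Nat.eq_zero_or_pos n with h0 | h0
    · rw [h0, S_zero] at h
      simp at h
    · exact h0
  have key : μH[s] (JJ e T) = 0 := by
    apply le_antisymm _ bot_le
    refine (Measure.hausdorffMeasure_le_liminf_tsum (β := ℕ) (ι := fun k => Fin (k * n) → T) s
      (JJ e T) (l := atTop) (fun k => ENNReal.ofReal (4 * (1 / ((k : ℝ) + 1)))) ?_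
      (fun k w => {y | ∃ x : ℕ → ℕ, (∀ i, x i ∈ T) ∧ (∀ i : Fin (k * n), x i = w i) ∧
        y = cf (fun i => e (x i))}) ?_ ?_).trans ?_
    · rw [← ENNReal.ofReal_zero]
      apply ENNReal.tendsto_ofReal
      have := (tendsto_one_div_add_atTop_nhds_zero_nat (𝕜 := ℝ)).const_mul 4
      simpa using this
    · refine Eventually.of_forall fun k w => ?_
      apply Metric.ediam_le
      rintro _ ⟨x, _, hx2, rfl⟩ _ ⟨y, _, hy2, rfl⟩
      rw [edist_dist, Real.dist_eq]
      apply ENNReal.ofReal_le_ofReal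
      have h1 := dist_le (k * n) (fun i => e (x i)) (fun i => e (y i)) (fun i => he _) (fun i => he _)
        (fun i hi => by
          have := hx2 ⟨i, hi⟩
          have := hy2 ⟨i, hi⟩
          simp_all)
      refine h1.trans ?_
      obtain ⟨h2, h3⟩ := pre_ge (fun i => e (x i)) (fun i => he _) (k * n)
      rw [mul_one_div]
      rw [div_le_div_iff₀ (by positivity) (by positivity)]
      have h4 : (k : ℝ) + 1 ≤ ((k * n : ℕ) : ℝ) + 1 := by
        have : k * 1 ≤ k * n := Nat.mul_le_mul_left k hn
        have : k ≤ k * n := by omega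
        have : (k : ℝ) ≤ ((k * n : ℕ) : ℝ) := by exact_mod_cast this
        linarith
      nlinarith
    · refine Eventually.of_forall fun k y hy => ?_
      obtain ⟨x, hx, rfl⟩ := hy
      refine Set.mem_iUnion.mpr ⟨fun i : Fin (k * n) => ⟨x i, hx i⟩, x, hx, fun i => rfl, rfl⟩
    · have hle : ∀ k : ℕ, (∑' w : Fin (k * n) → T, Metric.ediam
          {y | ∃ x : ℕ → ℕ, (∀ i, x i ∈ T) ∧ (∀ i : Fin (k * n), x i = w i) ∧
            y = cf (fun i => e (x i))} ^ s) ≤ S e T s n (1, 0) ^ k := by
        intro k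
        refine le_trans ?_ (S_mul T s hs.le he k n)
        rw [S_words]
        refine ENNReal.tsum_le_tsum (fun w => ?_)
        have hl : ∀ a ∈ List.ofFn (fun i => e (w i)), 1 ≤ a := by
          intro a ha
          rw [List.mem_ofFn] at ha
          obtain ⟨i, hi⟩ := ha
          rw [← hi]; exact he _
        have hg := (good_one.st hl).1
        have h1 : Metric.ediam {y | ∃ x : ℕ → ℕ, (∀ i, x i ∈ T) ∧ (∀ i : Fin (k * n), x i = w i) ∧
            y = cf (fun i => e (x i))} ≤
            ENNReal.ofReal (1 / (st (1, 0) (List.ofFn (fun i => e (w i)))).1 ^ 2) := by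
          apply Metric.ediam_le
          rintro _ ⟨x, _, hx2, rfl⟩ _ ⟨y, _, hy2, rfl⟩
          rw [edist_dist, Real.dist_eq]
          apply ENNReal.ofReal_le_ofReal
          have h1 := dist_le (k * n) (fun i => e (x i)) (fun i => e (y i)) (fun i => he _) (fun i => he _)
            (fun i hi => by
              have := hx2 ⟨i, hi⟩
              have := hy2 ⟨i, hi⟩
              simp_all)
          have h2 : pre (fun i => e (x i)) (k * n) = List.ofFn (fun i => e (w i)) := by
            unfold pre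
            congr 1
            funext i
            exact congrArg e (hx2 i)
          rw [h2] at h1
          exact h1
        refine (ENNReal.rpow_le_rpow h1 hs.le).trans (le_of_eq ?_)
        rw [ENNReal.ofReal_rpow_of_nonneg (by positivity) hs.le]
        congr 1
        rw [one_div, Real.inv_rpow (by positivity), ← Real.rpow_natCast, ← Real.rpow_mul hg.le,
          ← Real.rpow_neg hg.le]
        norm_num
      have hlim : Tendsto (fun k => S e T s n (1, 0) ^ k) atTop (𝓝 0) :=
        ENNReal.tendsto_pow_atTop_nhds_zero_of_lt_one h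
      calc liminf (fun k : ℕ => ∑' w : Fin (k * n) → T, Metric.ediam
          {y | ∃ x : ℕ → ℕ, (∀ i, x i ∈ T) ∧ (∀ i : Fin (k * n), x i = w i) ∧
            y = cf (fun i => e (x i))} ^ s) atTop ≤ liminf (fun k => S e T s n (1, 0) ^ k) atTop :=
            liminf_le_liminf (Eventually.of_forall hle)
        _ = 0 := hlim.liminf_eq
        _ ≤ 0 := le_rfl
  have hfin : μH[((s.toNNReal : NNReal) : ℝ)] (JJ e T) ≠ ∞ := by
    rw [Real.coe_toNNReal s hs.le, key]
    exact ENNReal.zero_ne_top
  exact dimH_le_of_hausdorffMeasure_ne_top hfin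

end R195.CF
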